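import Pool.Agent.H37.IS.Stm

set_option autoImplicit false

namespace H37.IS

theorem BA3_proved : S_BA3 := by
  intro M j h
  rcases j with _ | i
  · simp only [Nat.cast_zero, mul_zero, sub_zero] at h
    have h2 : M ≤ 2 := by
      by_contra hc
      have : (3 : ℤ) ≤ M := by exact_mod_cast (by omega : 3 ≤ M)
      nlinarith
    simp
    omega
  · have hle : i + 1 ≤ M := by
      by_contra hc
      have h1 : (M : ℤ) ≤ i := by exact_mod_cast (by omega : M ≤ i)
      push_cast at h
      have h0 : (0 : ℤ) ≤ M := by positivity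
      nlinarith
    obtain ⟨d, rfl⟩ := Nat.exists_eq_add_of_le hle
    have e1 := Nat.choose_succ_right_eq (i + 1 + d) (i + 1)
    have e2 := Nat.choose_succ_right_eq (i + 1 + d) i
    have f1 : i + 1 + d - (i + 1) = d := by omega
    have f2 : i + 1 + d - i = d + 1 := by omega
    rw [f1] at e1
    rw [f2] at e2
    have f3 : (if 1 ≤ i + 1 then (i + 1 + d).choose (i + 1 - 1) else 0) = (i + 1 + d).choose i := by
      simp
    rw [f3]
    generalize (i + 1 + d).choose (i + 1 + 1) = C at *
    generalize (i + 1 + d).choose (i + 1) = x at *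
    generalize (i + 1 + d).choose i = y at *
    push_cast at h
    zify at e1 e2 ⊢
    have hx : (0 : ℤ) ≤ x := by positivity
    have hk : (0 : ℤ) ≤ 2 * (i + 2) * (d + 1) - d * (d + 1) - (i + 1) * (i + 2) := by
      nlinarith
    have hm : 0 ≤ (x : ℤ) * (2 * (i + 2) * (d + 1) - d * (d + 1) - (i + 1) * (i + 2)) :=
      mul_nonneg hx hk
    have hp : (0 : ℤ) < (i + 2) * (d + 1) := by positivity
    have key : 0 ≤ (2 * (x : ℤ) - (C + y)) * ((i + 2) * (d + 1)) := by
      have : (2 * (x : ℤ) - (C + y)) * ((i + 2) * (d + 1)) =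
        (x : ℤ) * (2 * (i + 2) * (d + 1) - d * (d + 1) - (i + 1) * (i + 2)) := by
        linear_combination (-(d + 1 : ℤ)) * e1 + (i + 2 : ℤ) * e2
      rw [this]
      exact hm
    have := nonneg_of_mul_nonneg_left key hp
    linarith

theorem BA5_proved : S_BA5 := by
  refine ⟨?_, ?_⟩
  · intro N k j h hjk
    induction k, hjk using Nat.le_induction with
    | base => simp
    | succ k hk ih =>
      have h1 := ih (by omega)
      have e := Nat.choose_succ_right_eq N k
      have h2 : k + 1 ≤ 2 * (N - k) := by omega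
      have h3 : N.choose k ≤ 2 * N.choose (k + 1) := by
        have h4 : (k + 1) * N.choose k ≤ (k + 1) * (2 * N.choose (k + 1)) := by
          calc (k + 1) * N.choose k ≤ 2 * (N - k) * N.choose k := Nat.mul_le_mul_right _ h2
            _ = 2 * (N.choose k * (N - k)) := by ring
            _ = 2 * (N.choose (k + 1) * (k + 1)) := by rw [e]
            _ = _ := by ring
        exact Nat.le_of_mul_le_mul_left h4 (by omega)
      calc N.choose j ≤ 2 ^ (k - j) * N.choose k := h1
        _ ≤ 2 ^ (k - j) * (2 * N.choose (k + 1)) := Nat.mul_le_mul_left _ h3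
        _ = 2 ^ (k + 1 - j) * N.choose (k + 1) := by
          rw [show k + 1 - j = (k - j) + 1 by omega, pow_succ]
          ring
  · intro N k h
    have e := Nat.choose_succ_right_eq N k
    have h2 : N - k ≤ 2 * (k + 1) := by omega
    have h4 : (k + 1) * N.choose (k + 1) ≤ (k + 1) * (2 * N.choose k) := by
      calc (k + 1) * N.choose (k + 1) = N.choose k * (N - k) := by rw [← e]; ring
        _ ≤ N.choose k * (2 * (k + 1)) := Nat.mul_le_mul_left _ h2
        _ = _ := by ring
    exact Nat.le_of_mul_le_mul_left h4 (by omega)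

theorem SNM_proved (hB : S_BA2) : S_SNM := by
  intro N c k p hp hN hk h
  have e := Nat.choose_succ_right_eq N k
  have hmono : (c + 2 * k - 2).choose k ≤ (N - 3 * p).choose k :=
    Nat.choose_le_choose k (by omega)
  have main : (k + 1) * (c + 2 * k - 2).choose k ≤ (N - 2 * k - 1) * N.choose k := by
    rcases Nat.lt_or_ge N (3 * k + 2) with hc | hc
    · have h2 := hB N (3 * p) k (by omega) (by omega)
      have h3 : (k + 1) * 3 ^ (3 * p) ≤ 4 ^ (3 * p) := by
        calc (k + 1) * 3 ^ (3 * p) ≤ 2 ^ p * 3 ^ (3 * p) := Nat.mul_le_mul_right _ (by omega)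
          _ = 54 ^ p := by rw [pow_mul, ← mul_pow]; norm_num
          _ ≤ 64 ^ p := Nat.pow_le_pow_left (by norm_num) _
          _ = _ := by rw [pow_mul]; norm_num
      have h4 : 4 ^ (3 * p) * ((k + 1) * (N - 3 * p).choose k) ≤ 4 ^ (3 * p) * N.choose k := by
        calc 4 ^ (3 * p) * ((k + 1) * (N - 3 * p).choose k)
            = (k + 1) * (4 ^ (3 * p) * (N - 3 * p).choose k) := by ring
          _ ≤ (k + 1) * (3 ^ (3 * p) * N.choose k) := Nat.mul_le_mul_left _ h2
          _ = ((k + 1) * 3 ^ (3 * p)) * N.choose k := by ring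
          _ ≤ 4 ^ (3 * p) * N.choose k := Nat.mul_le_mul_right _ h3
      have h5 := Nat.le_of_mul_le_mul_left h4 (by positivity)
      calc (k + 1) * (c + 2 * k - 2).choose k ≤ (k + 1) * (N - 3 * p).choose k :=
            Nat.mul_le_mul_left _ hmono
        _ ≤ 1 * N.choose k := by rw [one_mul]; exact h5
        _ ≤ (N - 2 * k - 1) * N.choose k := Nat.mul_le_mul_right _ (by omega)
    · calc (k + 1) * (c + 2 * k - 2).choose k ≤ (N - 2 * k - 1) * (c + 2 * k - 2).choose k :=
            Nat.mul_le_mul_right _ (by omega)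
        _ ≤ (N - 2 * k - 1) * N.choose k :=
            Nat.mul_le_mul_left _ (Nat.choose_le_choose k (by omega))
  have fin : (k + 1) * (N.choose k + (c + 2 * k - 2).choose k) ≤ (k + 1) * N.choose (k + 1) := by
    calc (k + 1) * (N.choose k + (c + 2 * k - 2).choose k)
        = (k + 1) * N.choose k + (k + 1) * (c + 2 * k - 2).choose k := by ring
      _ ≤ (k + 1) * N.choose k + (N - 2 * k - 1) * N.choose k := Nat.add_le_add_left main _
      _ = ((k + 1) + (N - 2 * k - 1)) * N.choose k := by ring
      _ = (N - k) * N.choose k := by congr 1; omega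
      _ = N.choose (k + 1) * (k + 1) := by rw [e]; ring
      _ = _ := by ring
  exact Nat.le_of_mul_le_mul_left fin (by omega)

end H37.IS
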