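import Pool.Agent.H37.IS.Stm

set_option autoImplicit false

namespace H37.IS

theorem SLF_proved (h1 : S_BA1) (h2 : S_SNM) : S_SLF := by
  classical
  intro ι F N c a s i0 hF k p hp hN h
  have good : ∀ i ∈ F, ¬ (s i ≤ k ∧ N - a i ≤ 2 * (k - s i)) →
      ch (N - a i) k (s i) ≤ ch (N - a i) (k + 1) (s i) := by
    intro i hi hb
    unfold ch
    by_cases hs : s i ≤ k
    · have hb2 : ¬ (N - a i ≤ 2 * (k - s i)) := fun hh => hb ⟨hs, hh⟩
      rw [if_pos hs, if_pos (by omega), show k + 1 - s i = (k - s i) + 1 by omega]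
      exact h1.1 _ _ (by omega)
    · rw [if_neg hs]
      exact Nat.zero_le _
  have hi0 : ¬ (s i0 ≤ k ∧ N - a i0 ≤ 2 * (k - s i0)) := by
    rw [hF.hs0, hF.ha0]
    omega
  have bad1 : ∀ i ∈ F, (s i ≤ k ∧ N - a i ≤ 2 * (k - s i)) → 1 ≤ s i := by
    intro i hi hb
    by_contra hc
    have := hF.huniq i hi (by omega)
    subst this
    exact hi0 hb
  rcases Nat.eq_zero_or_pos k with hk | hk
  · unfold sumch
    refine Finset.sum_le_sum fun i hi => good i hi ?_
    intro hb
    have := bad1 i hi hb
    omega
  · have hsnm := h2 N c k p hp hN hk h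
    unfold sumch
    rw [← Finset.sum_filter_add_sum_filter_not F
      (fun i => s i ≤ k ∧ N - a i ≤ 2 * (k - s i)) (fun i => ch (N - a i) k (s i)),
      ← Finset.sum_filter_add_sum_filter_not F
      (fun i => s i ≤ k ∧ N - a i ≤ 2 * (k - s i)) (fun i => ch (N - a i) (k + 1) (s i))]
    set B := F.filter (fun i => s i ≤ k ∧ N - a i ≤ 2 * (k - s i)) with hB
    set Gd := F.filter (fun i => ¬ (s i ≤ k ∧ N - a i ≤ 2 * (k - s i))) with hG
    have hi0G : i0 ∈ Gd := by
      rw [hG, Finset.mem_filter]
      exact ⟨hF.h0, hi0⟩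
    have hbad : ∑ i ∈ B, ch (N - a i) k (s i) ≤ (c + 2 * k - 2).choose k := by
      have hmap : ∀ i ∈ B, s i ∈ Finset.range (k + 1) := by
        intro i hi
        rw [hB, Finset.mem_filter] at hi
        rw [Finset.mem_range]
        omega
      rw [← Finset.sum_fiberwise_of_maps_to hmap]
      have hin : ∀ j ∈ Finset.range (k + 1),
          ∑ i ∈ B.filter (fun i => s i = j), ch (N - a i) k (s i) ≤
            c.choose j * (2 * k - 2).choose (k - j) := by
        intro j hj
        have hcard : (B.filter (fun i => s i = j)).card ≤ c.choose j := by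
          refine le_trans (Finset.card_le_card ?_) (hF.hcount j)
          intro i hi
          rw [Finset.mem_filter] at hi ⊢
          rw [hB, Finset.mem_filter] at hi
          exact ⟨hi.1.1, hi.2⟩
        calc ∑ i ∈ B.filter (fun i => s i = j), ch (N - a i) k (s i)
            ≤ ∑ _i ∈ B.filter (fun i => s i = j), (2 * k - 2).choose (k - j) := by
              refine Finset.sum_le_sum fun i hi => ?_
              rw [Finset.mem_filter] at hi
              have hi2 := hi.1
              rw [hB, Finset.mem_filter] at hi2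
              have hs1 := bad1 i hi2.1 hi2.2
              unfold ch
              rw [if_pos hi2.2.1, hi.2]
              refine Nat.choose_le_choose _ ?_
              have := hi2.2.2
              omega
          _ = (B.filter (fun i => s i = j)).card * (2 * k - 2).choose (k - j) := by
              rw [Finset.sum_const, smul_eq_mul]
          _ ≤ _ := Nat.mul_le_mul_right _ hcard
      refine le_trans (Finset.sum_le_sum hin) ?_
      have hv := Nat.add_choose_eq c (2 * k - 2) k
      rw [Finset.Nat.sum_antidiagonal_eq_sum_range_succ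
        (fun x y => c.choose x * (2 * k - 2).choose y) k] at hv
      rw [show c + 2 * k - 2 = c + (2 * k - 2) by omega, hv]
    have e1 : ∑ i ∈ Gd, ch (N - a i) k (s i) =
        ch (N - a i0) k (s i0) + ∑ i ∈ Gd.erase i0, ch (N - a i) k (s i) :=
      (Finset.add_sum_erase Gd _ hi0G).symm
    have e2 : ∑ i ∈ Gd, ch (N - a i) (k + 1) (s i) =
        ch (N - a i0) (k + 1) (s i0) + ∑ i ∈ Gd.erase i0, ch (N - a i) (k + 1) (s i) :=
      (Finset.add_sum_erase Gd _ hi0G).symm
    have e3 : ∑ i ∈ Gd.erase i0, ch (N - a i) k (s i) ≤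
        ∑ i ∈ Gd.erase i0, ch (N - a i) (k + 1) (s i) := by
      refine Finset.sum_le_sum fun i hi => ?_
      have hi2 := Finset.mem_of_mem_erase hi
      rw [hG, Finset.mem_filter] at hi2
      exact good i hi2.1 hi2.2
    have e4 : ch (N - a i0) k (s i0) = N.choose k := by
      unfold ch
      rw [hF.ha0, hF.hs0]
      simp
    have e5 : ch (N - a i0) (k + 1) (s i0) = N.choose (k + 1) := by
      unfold ch
      rw [hF.ha0, hF.hs0]
      simp
    rw [e1, e2, e4, e5]
    omega

end H37.IS
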